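import Pool.Agent.Helper10.V3.Lin
import Pool.Agent.Helper10.V2.Crit

/-!
# V3: no ramified residue where an equation of a member of the family is a unit
-/

set_option autoImplicit false

namespace Pool.Agent.Helper10.V3

open MvPolynomial Pool.Agent.Helper61.TH Pool.Agent.Helper87.FK Pool.Agent.Helper26.OB Pool.Agent.Helper10.TR

noncomputable section

/-- no ramified residue where an equation of a set which contains the ramification locus is a unit -/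
theorem crit_unit (A : Subfield ℂ) (hA : ∀ z : ℂ, IsAlgebraic A z → z ∈ A) {m : ℕ}
    (B : Set (MvPolynomial (Fin m) ℂ)) (hB : ∀ g ∈ B, ∀ u, coeff u g ∈ A) (D : Finset (MvPolynomial (Fin m) ℂ))
    (hD : ∀ g ∈ D, ∀ u, coeff u g ∈ A) (F : Fin m → MvPolynomial (Fin m) ℂ) (hF : ∀ i u, coeff u (F i) ∈ A)
    (H : Finset (MvPolynomial (Fin m) ℂ)) (hH : ∀ h ∈ H, ∀ u, coeff u h ∈ A)
    (hcov : ∀ t, InX B ↑D t → Ram B F t → ∀ h ∈ H, eval t h = 0) :
    ∃ (𝓛 : Finset (Fin m → MvPolynomial (Fin m) ℂ)) (S : Finset ℂ), (∀ F' ∈ 𝓛, Upd B F F') ∧ (∀ z ∈ S, z ∈ A) ∧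
      ∀ (p : ℕ) [Fact p.Prime] (τ : ℂ →+* PadicAlgCl p), Un τ S →
        (∀ F' ∈ 𝓛, ∀ i u, ‖τ (coeff u (F' i))‖ ≤ 1) ∧
        ∀ t : Fin m → ℂ, (∀ g ∈ B, eval t g = 0) → (∀ i, ‖τ (t i)‖ ≤ 1) → (∃ g ∈ D, ‖τ (eval t g)‖ = 1) →
          (∃ h ∈ H, ‖τ (eval t h)‖ = 1) → ∃ F' ∈ 𝓛, ‖τ (jac F' t).det‖ = 1 := by
  classical
  obtain ⟨T, hTdef⟩ : ∃ T : Set (MvPolynomial (Fin m) ℂ), ∀ q, q ∈ T ↔ q ∈ B ∨ ((∀ u, coeff u q ∈ A) ∧
      ∃ F' ∈ {F' | Upd B F F'}, ∀ t, (jac F' t).det = eval t q) := ⟨{q | _}, fun q => Iff.rfl⟩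
  have hT : ∀ q ∈ T, ∀ u, coeff u q ∈ A := by
    intro q hq u
    rcases (hTdef q).1 hq with hq | ⟨h1, -⟩
    · exact hB q hq u
    · exact h1 u
  have h0 : ∀ h ∈ H, ∀ g ∈ D, ∀ y : Fin m → ℂ, (∀ q ∈ T, eval y q = 0) → eval y (g * h) = 0 := by
    intro h hh g hg y hy
    rw [map_mul]
    by_cases h0 : eval y g = 0
    · rw [h0, zero_mul]
    · have hX : InX B ↑D y := ⟨fun q hq => hy q ((hTdef q).2 (Or.inl hq)), g, hg, h0⟩
      have hr : Ram B F y := by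
        by_contra hn
        obtain ⟨F', hF', hd⟩ := exists_upd hn
        obtain ⟨J, hJ⟩ := Pool.Agent.Helper26.OS.exists_jacPoly98 A F' (hF'.coeffs hB hF)
        apply hd
        rw [hJ]
        refine hy _ ((hTdef _).2 (Or.inr ⟨fun u => ?_, F', hF', hJ⟩))
        rw [coeff_map]
        exact (coeff u J).2
      rw [hcov y hX hr h hh, mul_zero]
  have h2 : ∀ (h : H) (g : D), ∃ (Q : Finset (MvPolynomial (Fin m) ℂ)) (Z : Finset ℂ),
      (∀ q ∈ Q, q ∈ T) ∧ (∀ z ∈ Z, z ∈ A) ∧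
      ∀ (p : ℕ) [Fact p.Prime] (τ : ℂ →+* PadicAlgCl p), Un τ Z → ∀ y : Fin m → ℂ, (∀ v, ‖τ (y v)‖ ≤ 1) →
        (∀ q ∈ Q, ‖τ (eval y q)‖ < 1) → ‖τ (eval y (g.1 * h.1))‖ < 1 := fun h g =>
    red_imp A hA T hT (g.1 * h.1) (Pool.Agent.Helper11.TR.coeffs_mulR A (hD g.1 g.2) (hH h.1 h.2)) (h0 h.1 h.2 g.1 g.2)
  choose Q Z2 hQ hZ2 hred using h2
  set QQ : Finset (MvPolynomial (Fin m) ℂ) := (Finset.univ : Finset (H × D)).biUnion fun a => Q a.1 a.2 with hQQ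
  have hQT : ∀ q ∈ QQ, q ∈ T := by
    intro q hq
    obtain ⟨a, -, hq⟩ := Finset.mem_biUnion.1 hq
    exact hQ _ _ q hq
  obtain ⟨𝓛, h𝓛, hw⟩ := Pool.Agent.Helper11.TR.finite_wit {F' | Upd B F F'} (fun q => q ∈ B)
    (fun F' q => ∀ t, (jac F' t).det = eval t q) QQ (fun q hq => by
      rcases (hTdef q).1 (hQT q hq) with h | ⟨-, h⟩
      · exact Or.inl h
      · exact Or.inr h)
  refine ⟨𝓛, (Finset.univ : Finset (H × D)).biUnion (fun a => Z2 a.1 a.2) ∪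
      (QQ.biUnion (fun q => q.support.image fun u => coeff u q) ∪
        𝓛.biUnion fun F' => Finset.univ.biUnion fun i => (F' i).support.image fun u => coeff u (F' i)), h𝓛, ?_, ?_⟩
  · intro z hz
    rcases Finset.mem_union.1 hz with hz | hz
    · obtain ⟨a, -, hz⟩ := Finset.mem_biUnion.1 hz
      exact hZ2 a.1 a.2 z hz
    · rcases Finset.mem_union.1 hz with hz | hz
      · obtain ⟨q, hq, hz⟩ := Finset.mem_biUnion.1 hz
        obtain ⟨u, -, rfl⟩ := Finset.mem_image.1 hz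
        exact hT q (hQT q hq) u
      · obtain ⟨F', hF', hz⟩ := Finset.mem_biUnion.1 hz
        obtain ⟨i, -, hz⟩ := Finset.mem_biUnion.1 hz
        obtain ⟨u, -, rfl⟩ := Finset.mem_image.1 hz
        exact Upd.coeffs hB hF (h𝓛 F' hF') i u
  · intro p _ τ hUn
    refine ⟨fun F' hF' i u => ?_, ?_⟩
    · by_cases h0 : coeff u (F' i) = 0
      · rw [h0, map_zero, norm_zero]
        exact zero_le_one
      · exact (hUn _ (Finset.mem_union_right _ (Finset.mem_union_right _ (Finset.mem_biUnion.2 ⟨F', hF',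
          Finset.mem_biUnion.2 ⟨i, Finset.mem_univ _, Finset.mem_image.2 ⟨u, mem_support_iff.2 h0, rfl⟩⟩⟩)))).1
    · rintro t htB ht ⟨g, hg, hgu⟩ ⟨h, hh, hhu⟩
      by_contra hne
      push Not at hne
      have h5 := hred ⟨h, hh⟩ ⟨g, hg⟩ p τ (fun z hz => hUn z (Finset.mem_union_left _
        (Finset.mem_biUnion.2 ⟨(⟨h, hh⟩, ⟨g, hg⟩), Finset.mem_univ _, hz⟩))) t ht (by
          intro q hq
          have hqq : q ∈ QQ := Finset.mem_biUnion.2 ⟨(⟨h, hh⟩, ⟨g, hg⟩), Finset.mem_univ _, hq⟩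
          have hint : ‖τ (eval t q)‖ ≤ 1 := by
            refine (rd_eval τ _ (fun u => ?_) t ht).1
            by_cases h0 : coeff u q = 0
            · rw [h0, map_zero, norm_zero]
              exact zero_le_one
            · exact (hUn _ (Finset.mem_union_right _ (Finset.mem_union_left _ (Finset.mem_biUnion.2
                ⟨q, hqq, Finset.mem_image.2 ⟨u, mem_support_iff.2 h0, rfl⟩⟩)))).1
          rcases hw q hqq with h6 | ⟨F', hF', h6⟩
          · rw [htB q h6, map_zero, norm_zero]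
            exact zero_lt_one
          · refine lt_of_le_of_ne hint ?_
            rw [← h6]
            exact hne F' hF')
      rw [map_mul, map_mul, norm_mul, hgu, hhu, one_mul] at h5
      exact absurd h5 (lt_irrefl _)

end

end Pool.Agent.Helper10.V3
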