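import Pool.Agent.Helper10.TR.Asm

/-!
# V3: the engine along a sequence of letters which is periodic
-/

set_option autoImplicit false

namespace Pool.Agent.Helper10.V3

open MvPolynomial Pool.Agent.Helper61.TH Pool.Agent.Helper87.FK Pool.Agent.Helper26.OB Pool.Agent.Helper10.TR
open Pool.Agent.Helper26.OS (evI jacI run wordI evI_wordI jacI_comp jacI_id coeff_wordI_mem)

noncomputable section

/-- the word of length `n` which starts at time `j` -/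
def wd {c : ℕ} (hc : 0 < c) (j : ℕ) : ℕ → List (Fin c)
  | 0 => []
  | n + 1 => ⟨(j + n) % c, Nat.mod_lt _ hc⟩ :: wd hc j n

theorem run_wd {ι : Type} [Fintype ι] {c : ℕ} (hc : 0 < c) (P : Fin c → ι → MvPolynomial ι ℂ) (y : ℕ → ι → ℂ)
    (hstep : ∀ k, y (k + 1) = evI (P ⟨k % c, Nat.mod_lt _ hc⟩) (y k)) (j l n : ℕ) :
    run P (wd hc j n) (y (j + c * l)) = y (j + c * l + n) := by
  induction n with
  | zero => rfl
  | succ n ih =>
    change evI (P ⟨(j + n) % c, _⟩) (run P (wd hc j n) (y (j + c * l))) = _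
    rw [ih, ← add_assoc, hstep]
    have h1 : (⟨(j + n) % c, Nat.mod_lt _ hc⟩ : Fin c) = ⟨(j + c * l + n) % c, Nat.mod_lt _ hc⟩ := by
      apply Fin.ext
      change (j + n) % c = (j + c * l + n) % c
      rw [show j + c * l + n = j + n + c * l by ring, Nat.add_mul_mod_self_left]
    rw [h1]

theorem jac_wd {ι : Type} [Fintype ι] [DecidableEq ι] {c : ℕ} (hc : 0 < c) (P : Fin c → ι → MvPolynomial ι ℂ) (p : ℕ)
    [Fact p.Prime] (τ : ℂ →+* PadicAlgCl p) (y : ℕ → ι → ℂ)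
    (hstep : ∀ k, y (k + 1) = evI (P ⟨k % c, Nat.mod_lt _ hc⟩) (y k))
    (H : ∀ k, ‖τ (jacI (P ⟨k % c, Nat.mod_lt _ hc⟩) (y k)).det‖ = 1) (j l n : ℕ) :
    ‖τ (jacI (wordI P (wd hc j n)) (y (j + c * l))).det‖ = 1 := by
  induction n with
  | zero =>
    change ‖τ (jacI (fun i => (X i : MvPolynomial ι ℂ)) (y (j + c * l))).det‖ = 1
    rw [jacI_id, Matrix.det_one, map_one, norm_one]
  | succ n ih =>
    change ‖τ (jacI (fun i => bind₁ (wordI P (wd hc j n)) (P ⟨(j + n) % c, Nat.mod_lt _ hc⟩ i)) (y (j + c * l))).det‖ = 1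
    rw [jacI_comp, Matrix.det_mul, map_mul, norm_mul, ih, mul_one, evI_wordI, run_wd hc P y hstep]
    have h1 : (⟨(j + n) % c, Nat.mod_lt _ hc⟩ : Fin c) = ⟨(j + c * l + n) % c, Nat.mod_lt _ hc⟩ := by
      apply Fin.ext
      change (j + n) % c = (j + c * l + n) % c
      rw [show j + c * l + n = j + n + c * l by ring, Nat.add_mul_mod_self_left]
    rw [h1]
    exact H _

theorem iter_wd {ι : Type} [Fintype ι] {c : ℕ} (hc : 0 < c) (P : Fin c → ι → MvPolynomial ι ℂ) (y : ℕ → ι → ℂ)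
    (hstep : ∀ k, y (k + 1) = evI (P ⟨k % c, Nat.mod_lt _ hc⟩) (y k)) (j l : ℕ) :
    (evI (wordI P (wd hc j c)))^[l] (y j) = y (j + c * l) := by
  induction l with
  | zero => rfl
  | succ l ih =>
    rw [Function.iterate_succ_apply', ih, evI_wordI, run_wd hc P y hstep, Nat.mul_succ, ← add_assoc]

/-- the engine for a periodic sequence of letters -/
theorem eng_seq {ι : Type} [Fintype ι] [DecidableEq ι] {c : ℕ} (hc : 0 < c) (P : Fin c → ι → MvPolynomial ι ℂ) (p : ℕ)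
    [Fact p.Prime] (hp3 : 3 ≤ p) (τ : ℂ →+* PadicAlgCl p) (hP : ∀ b i s, ‖τ (coeff s (P b i))‖ ≤ 1)
    (y : ℕ → ι → ℂ) (hy : ∀ k i, ‖τ (y k i)‖ ≤ 1)
    (hstep : ∀ k, y (k + 1) = evI (P ⟨k % c, Nat.mod_lt _ hc⟩) (y k))
    (H : ∀ k, ‖τ (jacI (P ⟨k % c, Nat.mod_lt _ hc⟩) (y k)).det‖ = 1)
    (V : Set (MvPolynomial ι ℂ)) : ∃ S : Finset (ℕ × ℕ),
      {k : ℕ | ∀ g ∈ V, eval (y k) g = 0} = {k | ∃ q ∈ S, ∃ j, k = q.1 + q.2 * j} := by
  classical
  have h1 : ∀ j : Fin c, ∃ S : Finset (ℕ × ℕ),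
      {l : ℕ | ∀ g ∈ V, eval (y (j.1 + c * l)) g = 0} = {l | ∃ q ∈ S, ∃ k, l = q.1 + q.2 * k} := by
    intro j
    obtain ⟨S, hS⟩ := eng_one (wordI P (wd hc j.1 c)) p hp3 τ (fun i s =>
      Pool.Agent.Helper87.FK.mem_Oc.1 (coeff_wordI_mem (Pool.Agent.Helper87.FK.Oc p).toSubring τ P
        (fun a i t => Pool.Agent.Helper87.FK.mem_Oc.2 (hP a i t)) (wd hc j.1 c) i s)) (y j.1) (hy j.1) (fun l => by
        rw [iter_wd hc P y hstep]
        exact jac_wd hc P p τ y hstep H j.1 l c) V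
    refine ⟨S, ?_⟩
    rw [← hS]
    ext l
    change (∀ g ∈ V, eval (y (j.1 + c * l)) g = 0) ↔ ∀ g ∈ V, eval ((evI (wordI P (wd hc j.1 c)))^[l] (y j.1)) g = 0
    rw [iter_wd hc P y hstep]
  choose S hS using h1
  refine ⟨(Finset.univ : Finset (Fin c)).biUnion fun j => (S j).image fun q => (j.1 + c * q.1, c * q.2), ?_⟩
  ext k
  constructor
  · intro hk
    have h2 : k / c ∈ {l : ℕ | ∀ g ∈ V, eval (y (k % c + c * l)) g = 0} := by
      change ∀ g ∈ V, eval (y (k % c + c * (k / c))) g = 0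
      rw [Nat.mod_add_div]
      exact hk
    have h3 := hS ⟨k % c, Nat.mod_lt _ hc⟩
    rw [h3] at h2
    obtain ⟨q, hq, m, hm⟩ := h2
    refine ⟨_, Finset.mem_biUnion.2 ⟨⟨k % c, Nat.mod_lt _ hc⟩, Finset.mem_univ _, Finset.mem_image.2 ⟨q, hq, rfl⟩⟩, m, ?_⟩
    change k = k % c + c * q.1 + c * q.2 * m
    conv_lhs => rw [← Nat.mod_add_div k c, hm]
    ring
  · rintro ⟨_, hq, m, rfl⟩
    obtain ⟨j, -, hq⟩ := Finset.mem_biUnion.1 hq
    obtain ⟨q, hqS, rfl⟩ := Finset.mem_image.1 hq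
    have h2 : q.1 + q.2 * m ∈ {l : ℕ | ∀ g ∈ V, eval (y (j.1 + c * l)) g = 0} := by
      rw [hS j]
      exact ⟨q, hqS, m, rfl⟩
    change ∀ g ∈ V, eval (y (j.1 + c * q.1 + c * q.2 * m)) g = 0
    rw [show j.1 + c * q.1 + c * q.2 * m = j.1 + c * (q.1 + q.2 * m) by ring]
    exact h2

end

end Pool.Agent.Helper10.V3
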