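import Pool.Agent.Helper10.V2.Asm
import Pool.Agent.Helper10.V3.Crit
import Pool.Agent.Helper10.V3.Eng

/-!
# V3: the theorem over a base whose ramification locus lies in a member of the family
-/

set_option autoImplicit false

namespace Pool.Agent.Helper10.V3

open MvPolynomial Pool.Agent.Helper61.TH Pool.Agent.Helper87.FK Pool.Agent.Helper26.OB Pool.Agent.Helper10.TR
open Pool.Agent.Helper26.OS (evI jacI sysI run engI jacB)
open Pool.Agent.Helper10.OS (below)
open Pool.Agent.Helper10.V2 (Fam fix_fin ev_per shift_set)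

noncomputable section

/-- the ramification locus lies in a member of the family -/
def Good {m : ℕ} (A : Subfield ℂ) (s : ℂ →+* ℂ) (F : Fin m → MvPolynomial (Fin m) ℂ)
    (B D : Set (MvPolynomial (Fin m) ℂ)) : Prop :=
  ∃ Z, Fam A s F B D Z ∧ ∀ t, InX B D t → Ram B F t → Pool.Agent.Helper10.V2.On Z t

/-- the Jacobian determinant is a unit at all points with the same residues -/
theorem jac_rd {m p : ℕ} [Fact p.Prime] (τ : ℂ →+* PadicAlgCl p) (F : Fin m → MvPolynomial (Fin m) ℂ)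
    (hF : ∀ i u, ‖τ (coeff u (F i))‖ ≤ 1) (t t' : Fin m → ℂ) (ht : ∀ i, ‖τ (t i)‖ ≤ 1) (ht' : ∀ i, ‖τ (t' i)‖ ≤ 1)
    (h : ∀ i, rd τ (t i) = rd τ (t' i)) (h1 : ‖τ (jac F t).det‖ = 1) : ‖τ (jac F t').det‖ = 1 := by
  let T : Subring ℂ := (Oc p).toSubring.comap τ
  have hmem : ∀ z : ℂ, z ∈ T ↔ ‖τ z‖ ≤ 1 := fun z => mem_Oc
  have hmap : ∀ P : MvPolynomial (Fin m) ℂ, (∀ u, coeff u P ∈ T) → ∃ G : MvPolynomial (Fin m) T, map T.subtype G = P := by
    intro P hP
    have h3 : P ∈ Set.range (map T.subtype) := by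
      rw [mem_range_map_iff_coeffs_subset]
      intro x hx
      rw [coeffs, Finset.coe_image] at hx
      obtain ⟨s, -, rfl⟩ := hx
      exact ⟨⟨_, hP s⟩, rfl⟩
    exact h3
  choose G hG using fun i => hmap (F i) fun u => (hmem _).2 (hF i u)
  have hJ : ∀ t, (jac F t).det = eval t (map T.subtype (Matrix.of fun i j => pderiv j (G i)).det) := by
    intro t
    rw [RingHom.map_det, RingHom.map_det]
    congr 1
    ext i j
    show eval t (pderiv j (F i)) = eval t (map T.subtype (pderiv j (G i)))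
    rw [← hG, pderiv_map]
  have hc : ∀ u, ‖τ (coeff u (map T.subtype (Matrix.of fun i j => pderiv j (G i)).det))‖ ≤ 1 := by
    intro u
    rw [coeff_map]
    exact (hmem _).1 (coeff u (Matrix.of fun i j => pderiv j (G i)).det).2
  rw [hJ] at h1 ⊢
  obtain ⟨h2, h3⟩ := rd_eval τ _ hc t ht
  obtain ⟨h4, h5⟩ := rd_eval τ _ hc t' ht'
  refine norm_of_rd_ne_zero τ h4 ?_
  intro h6
  have h7 : (fun v => rd τ (t v)) = fun v => rd τ (t' v) := funext h
  rw [h5, ← h7, ← h3] at h6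
  have h8 := (rd_eq_zero τ h2).1 h6
  rw [h1] at h8
  exact absurd h8 (lt_irrefl _)

theorem tri5_of (A : Subfield ℂ) (hA : ∀ z : ℂ, IsAlgebraic A z → z ∈ A)
    (σ : ℂ ≃+* ℂ) (_hσA : ∀ z ∈ A, σ z ∈ A) (hper : ∀ z ∈ A, ∃ k, 1 ≤ k ∧ σ^[k] z = z)
    (frob : ∀ (Z : Finset ℂ), (∀ z ∈ Z, z ∈ A) → ∀ (N₀ : ℕ),
      ∃ (p : ℕ) (_ : Fact p.Prime) (τ : ℂ →+* PadicAlgCl p), N₀ < p ∧ Un τ Z ∧
      (∀ z ∈ Z, ∀ m : ℕ, ‖(τ z) ^ p ^ m - τ z‖ < 1 ↔ σ^[m] z = z) ∧ FrobPlus (σ : ℂ →+* ℂ) τ Z)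
    (fam_unit : ∀ {m : ℕ}
      (B : Set (MvPolynomial (Fin m) ℂ)), (∀ g ∈ B, ∀ u, coeff u g ∈ A) → ∀ (D : Finset (MvPolynomial (Fin m) ℂ)),
      (∀ g ∈ D, ∀ u, coeff u g ∈ A) → ∀ (F : Fin m → MvPolynomial (Fin m) ℂ), (∀ i u, coeff u (F i) ∈ A) →
      ∀ (Z : Set (MvPolynomial (Fin m) ℂ)), Fam A (σ : ℂ →+* ℂ) F B ↑D Z →
      ∃ (H : Finset (MvPolynomial (Fin m) ℂ)) (S : Finset ℂ), (∀ h ∈ H, h ∈ Z) ∧ (∀ z ∈ S, z ∈ A) ∧
        ∀ (p : ℕ) [Fact p.Prime] (τ : ℂ →+* PadicAlgCl p), Un τ S → FrobPlus (σ : ℂ →+* ℂ) τ S →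
        ∀ t : ℕ → Fin m → ℂ, (∀ k, t (k + 1) = ev F (t k)) → (∀ k, ∀ g ∈ B, eval (t k) g = 0) →
          (∀ k i, ‖τ (t k i)‖ ≤ 1) → (∀ k, ∃ g ∈ D, ‖τ (eval (t k) g)‖ = 1) →
          (∀ k i, ‖(τ (t k i)) ^ p - τ (t k i)‖ < 1) → ∀ c : ℕ, 1 ≤ c → (∀ k i, ‖τ (t (k + c) i) - τ (t k i)‖ < 1) →
            ∀ k, ∃ h ∈ H, ‖τ (eval (t k) h)‖ = 1)
    {m n : ℕ} (K : Subfield ℂ) (hKA : ∀ z ∈ K, z ∈ A) (B D : Set (MvPolynomial (Fin m) ℂ)) (hB : ∀ g ∈ B, ∀ s, coeff s g ∈ K) (hD : ∀ g ∈ D, ∀ s, coeff s g ∈ K)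
    (F : Fin m → MvPolynomial (Fin m) ℂ) (hF : ∀ i s, coeff s (F i) ∈ K)
    (hFX : ∀ t, InX B D t → InX B D (ev F t))
    (P : Fin n → MvPolynomial (Fin m ⊕ Fin n) ℂ) (hP : ∀ r s, coeff s (P r) ∈ K) (htri : Tri P)
    (e : Fin n → ℕ) (he : ∀ r, 1 ≤ e r)
    (hdeg : ∀ y : Fin m ⊕ Fin n → ℂ, InX B D (fun i => y (Sum.inl i)) → ∀ r,
        (fib (Sum.inr r) y (P r)).natDegree = e r)
    (t : Fin m → ℂ) (ht : ∀ i, t i ∈ K) (htX : InX B D t)
    (x : Fin n → ℂ) (hx : ∀ i, x i ∈ A)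
    (hσ : ∀ z ∈ K, σ z = z) (hg : Good A (σ : ℂ →+* ℂ) F B D)
    (hc : ∀ r : Fin n, 2 ≤ e r → (∃ l : ℕ, l.Prime ∧ e r < l ∧ l ∣ ln σ x (r + 1) / ln σ x r) ∨
      ((crs F P (Sum.elim t x) r).Finite ∧ ∀ c ∈ crs F P (Sum.elim t x) r, ∀ E, Smooth (e r) E →
        ln σ x (r + 1) / ln σ x r ≠ E * sInf {k | 1 ≤ k ∧ σ^[ln σ x r * k] c = c}))
    (V : Set (MvPolynomial (Fin m ⊕ Fin n) ℂ)) :
    ∃ S : Finset (ℕ × ℕ), {k | ∀ g ∈ V, eval ((evI (GG F P))^[k] (Sum.elim t x)) g = 0} =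
      {k | ∃ q ∈ S, ∃ j, k = q.1 + q.2 * j} := by
  classical
  -- the orbit is algebraic
  have hPA : ∀ v s, coeff s (GG F P v) ∈ A := by
    rintro (i | r) s
    · by_cases h : coeff s (rename Sum.inl (F i)) = 0
      · change coeff s (rename Sum.inl (F i)) ∈ A
        rw [h]
        exact A.zero_mem
      · obtain ⟨u, hu, hu'⟩ := coeff_rename_ne_zero _ _ _ h
        change coeff s (rename Sum.inl (F i)) ∈ A
        rw [← hu, coeff_rename_mapDomain _ Sum.inl_injective]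
        exact hKA _ (hF i u)
    · exact hKA _ (hP r s)
  have hyA : ∀ k v, (evI (GG F P))^[k] (Sum.elim t x) v ∈ A := by
    intro k
    induction k with
    | zero =>
      rintro (i | r)
      · exact hKA _ (ht i)
      · exact hx r
    | succ k ih =>
      intro v
      rw [Function.iterate_succ_apply']
      exact eval₂_mem (fun s _ => hPA v s) ih
  have hyX : ∀ k, InX B D fun i => (evI (GG F P))^[k] (Sum.elim t x) (Sum.inl i) := by
    intro k
    rw [orb_base F P _ k]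
    have h0 : (fun i => (Sum.elim t x : Fin m ⊕ Fin n → ℂ) (Sum.inl i)) = t := rfl
    rw [h0]
    induction k with
    | zero => exact htX
    | succ k ih =>
      rw [Function.iterate_succ_apply']
      exact hFX _ ih
  have hcrA : ∀ r, ∀ c ∈ crs F P (Sum.elim t x) r, c ∈ A := by
    rintro r c ⟨k, hk⟩
    refine hA c ?_
    obtain ⟨P', hP'⟩ := Pool.Agent.Helper26.OS.exists_map98 A (P r) (hPA (Sum.inr r))
    let y' : Fin m ⊕ Fin n → A := fun v => ⟨_, hyA k v⟩
    have h1 := fib_map A.subtype (Sum.inr r) y' P'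
    rw [hP'] at h1
    have h2 : (fun w => A.subtype (y' w)) = (evI (GG F P))^[k] (Sum.elim t x) := rfl
    rw [h2] at h1
    refine ⟨Polynomial.derivative (fib (Sum.inr r) y' P'), ?_, ?_⟩
    · intro h3
      have h4 := hdeg _ (hyX k) r
      rw [h1, Polynomial.natDegree_map] at h4
      have h5 := Polynomial.derivative_eq_zero.1 h3
      have := he r
      omega
    · rw [h1, Polynomial.derivative_map] at hk
      rw [Polynomial.aeval_def]
      rw [Polynomial.eval_map] at hk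
      exact hk
  let Z₄ : Finset ℂ := Finset.univ.biUnion fun r =>
    if h : (crs F P (Sum.elim t x) r).Finite then h.toFinset else ∅
  have hZ₄ : ∀ z ∈ Z₄, z ∈ A := by
    intro z hz
    obtain ⟨r, -, hz⟩ := Finset.mem_biUnion.1 hz
    by_cases h : (crs F P (Sum.elim t x) r).Finite
    · rw [dif_pos h] at hz
      exact hcrA r z (h.mem_toFinset.1 hz)
    · rw [dif_neg h] at hz
      exact absurd hz (Finset.notMem_empty z)
  have hcrZ₄ : ∀ r, (crs F P (Sum.elim t x) r).Finite → ∀ c ∈ crs F P (Sum.elim t x) r, c ∈ Z₄ := by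
    intro r h c hc
    refine Finset.mem_biUnion.2 ⟨r, Finset.mem_univ _, ?_⟩
    rw [dif_pos h]
    exact h.mem_toFinset.2 hc
  obtain ⟨D₀, hD₀, hDD⟩ := Pool.Agent.Helper26.OS.fin_eqs D
  have hXX := inX_fin B D D₀ hDD
  have hD₀A : ∀ g ∈ D₀, ∀ s, coeff s g ∈ A := fun g hg s => hKA _ (hD g (hD₀ g hg) s)
  obtain ⟨Z₁, hZ₁, hlead⟩ := lead_unitD A hA B (fun g hg s => hKA _ (hB g hg s)) D₀ hD₀A P (fun r s => hKA _ (hP r s)) e he
    fun y hy => hdeg y ((hXX _).2 hy)
  obtain ⟨Zc, hfam, hcov⟩ := hg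
  have hBA : ∀ g ∈ B, ∀ s, coeff s g ∈ A := fun g hg s => hKA _ (hB g hg s)
  have hFA : ∀ i s, coeff s (F i) ∈ A := fun i s => hKA _ (hF i s)
  obtain ⟨H, Zf, hHZ, hZf, hfu⟩ := fam_unit B hBA D₀ hD₀A F hFA Zc (hfam.congr hXX)
  obtain ⟨𝓛, Z₂, h𝓛, hZ₂, hjac⟩ := crit_unit A hA B hBA D₀ hD₀A F hFA H (fun h hh => hfam.coeffs h (hHZ h hh))
    fun t ht h0 h hh => hcov t ((hXX t).2 ht) h0 h (hHZ h hh)
  obtain ⟨Z₅, hZ₅, hinv⟩ := inv_unit A hA B (fun g hg s => hKA _ (hB g hg s)) D₀ hD₀A F (fun i s => hKA _ (hF i s))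
    fun t ht => (hXX _).1 (hFX t ((hXX t).2 ht))
  obtain ⟨g₀, hg₀, hg₀t⟩ := ((hXX t).1 htX).2
  have hg₀A : eval t g₀ ∈ A := eval₂_mem (fun s _ => hD₀A g₀ hg₀ s) fun i => hKA _ (ht i)
  -- all coefficients
  let Z₃ : Finset ℂ := (Finset.univ.biUnion fun i => (F i).support.image fun s => coeff s (F i)) ∪
    (Finset.univ.biUnion fun r => (P r).support.image fun s => coeff s (P r)) ∪ Finset.univ.image t
  have hZ₃ : ∀ z ∈ Z₃, z ∈ K := by
    intro z hz
    rcases Finset.mem_union.1 hz with hz | hz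
    · rcases Finset.mem_union.1 hz with hz | hz
      · obtain ⟨i, -, hz⟩ := Finset.mem_biUnion.1 hz
        obtain ⟨s, -, rfl⟩ := Finset.mem_image.1 hz
        exact hF i s
      · obtain ⟨i, -, hz⟩ := Finset.mem_biUnion.1 hz
        obtain ⟨s, -, rfl⟩ := Finset.mem_image.1 hz
        exact hP i s
    · obtain ⟨i, -, rfl⟩ := Finset.mem_image.1 hz
      exact ht i
  let Z : Finset ℂ := Z₁ ∪ Z₂ ∪ Z₃ ∪ (Finset.univ.image x ∪ (Z₄ ∪ (Z₅ ∪ ({eval t g₀} ∪ Zf))))
  have hZ : ∀ z ∈ Z, z ∈ A := by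
    intro z hz
    rcases Finset.mem_union.1 hz with hz | hz
    · rcases Finset.mem_union.1 hz with hz | hz
      · rcases Finset.mem_union.1 hz with hz | hz
        · exact hZ₁ z hz
        · exact hZ₂ z hz
      · exact hKA z (hZ₃ z hz)
    · rcases Finset.mem_union.1 hz with hz | hz
      · obtain ⟨i, -, rfl⟩ := Finset.mem_image.1 hz
        exact hx i
      · rcases Finset.mem_union.1 hz with hz | hz
        · exact hZ₄ z hz
        · rcases Finset.mem_union.1 hz with hz | hz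
          · exact hZ₅ z hz
          · rcases Finset.mem_union.1 hz with hz | hz
            · rw [Finset.mem_singleton.1 hz]
              exact hg₀A
            · exact hZf z hz
  obtain ⟨p, hp, τ, hpN, hUn, hfr, hfp⟩ := frob Z hZ (max (Finset.univ.sup e) 3)
  have hp3 : 3 ≤ p := (lt_of_le_of_lt (le_max_right _ 3) hpN).le
  have hpe : ∀ r, e r < p := fun r =>
    lt_of_le_of_lt ((Finset.le_sup (f := e) (Finset.mem_univ r)).trans (le_max_left _ 3)) hpN
  have hUn₁ : Un τ Z₁ := fun z hz => hUn z (Finset.mem_union_left _ (Finset.mem_union_left _ (Finset.mem_union_left _ hz)))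
  have hUn₂ : Un τ Z₂ := fun z hz => hUn z (Finset.mem_union_left _ (Finset.mem_union_left _ (Finset.mem_union_right _ hz)))
  have hUn₃ : Un τ Z₃ := fun z hz => hUn z (Finset.mem_union_left _ (Finset.mem_union_right _ hz))
  have hZ₃Z : ∀ z ∈ Z₃, z ∈ Z := fun z hz => Finset.mem_union_left _ (Finset.mem_union_right _ hz)
  have hxZ : ∀ i, x i ∈ Z := fun i => Finset.mem_union_right _ (Finset.mem_union_left _
    (Finset.mem_image.2 ⟨i, Finset.mem_univ _, rfl⟩))
  have hZ₄Z : ∀ z ∈ Z₄, z ∈ Z := fun z hz => Finset.mem_union_right _ (Finset.mem_union_right _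
    (Finset.mem_union_left _ hz))
  have hUn₅ : Un τ Z₅ := fun z hz => hUn z (Finset.mem_union_right _ (Finset.mem_union_right _
    (Finset.mem_union_right _ (Finset.mem_union_left _ hz))))
  have hUg₀ : ‖τ (eval t g₀)‖ = 1 := (hUn _ (Finset.mem_union_right _ (Finset.mem_union_right _
    (Finset.mem_union_right _ (Finset.mem_union_right _ (Finset.mem_union_left _ (Finset.mem_singleton_self _))))))).2 hg₀t
  have hZfZ : ∀ z ∈ Zf, z ∈ Z := fun z hz => Finset.mem_union_right _ (Finset.mem_union_right _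
    (Finset.mem_union_right _ (Finset.mem_union_right _ (Finset.mem_union_right _ hz))))
  have hUnf : Un τ Zf := fun z hz => hUn z (hZfZ z hz)
  have hfpf : FrobPlus (σ : ℂ →+* ℂ) τ Zf := by
    intro l
    obtain ⟨k, hk⟩ := hfp l
    exact ⟨k, fun z hz => hk z (hZfZ z hz)⟩
  have htZ : ∀ i, t i ∈ Z₃ := fun i => Finset.mem_union_right _ (Finset.mem_image.2 ⟨i, Finset.mem_univ _, rfl⟩)
  have hFZ : ∀ i s, coeff s (F i) ≠ 0 → coeff s (F i) ∈ Z₃ := fun i s h => Finset.mem_union_left _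
    (Finset.mem_union_left _ (Finset.mem_biUnion.2 ⟨i, Finset.mem_univ _, Finset.mem_image.2 ⟨s, mem_support_iff.2 h, rfl⟩⟩))
  have hPZ : ∀ i s, coeff s (P i) ≠ 0 → coeff s (P i) ∈ Z₃ := fun i s h => Finset.mem_union_left _
    (Finset.mem_union_right _ (Finset.mem_biUnion.2 ⟨i, Finset.mem_univ _, Finset.mem_image.2 ⟨s, mem_support_iff.2 h, rfl⟩⟩))
  -- the Frobenius
  have hcp : CharP (kk p) p := charP_kk p
  set φ : kk p →+* kk p := frobenius (kk p) p with hφ
  have hrd : ∀ z ∈ Z, ∀ k : ℕ, φ^[k] (rd τ z) = rd τ z ↔ σ^[k] z = z := by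
    intro z hz k
    rw [← hfr z hz k, hφ, iterate_frobenius]
    exact (rd_pow_iff τ z (hUn z hz).1 k)
  have hφK : ∀ z ∈ Z₃, φ (rd τ z) = rd τ z := by
    intro z hz
    exact (hrd z (hZ₃Z z hz) 1).2 (hσ z (hZ₃ z hz))
  -- the map
  set G := GG F P with hG
  have hGc : ∀ v s, coeff s (G v) = 0 ∨ coeff s (G v) ∈ Z₃ := by
    rintro (i | r) s
    · by_cases h : coeff s (rename Sum.inl (F i)) = 0
      · exact Or.inl h
      · right
        obtain ⟨u, hu, hu'⟩ := coeff_rename_ne_zero _ _ _ h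
        have h2 : coeff s (rename Sum.inl (F i)) = coeff u (F i) := by
          rw [← hu, coeff_rename_mapDomain _ Sum.inl_injective]
        change coeff s (rename Sum.inl (F i)) ∈ Z₃
        rw [h2]
        exact hFZ i u hu'
    · by_cases h : coeff s (P r) = 0
      · exact Or.inl h
      · exact Or.inr (hPZ r s h)
  have hGint : ∀ v s, ‖τ (coeff s (G v))‖ ≤ 1 := by
    intro v s
    rcases hGc v s with h | h
    · rw [h, map_zero, norm_zero]
      exact zero_le_one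
    · exact (hUn₃ _ h).1
  have hGfix : ∀ v s, φ (coeff s (rp τ (G v))) = coeff s (rp τ (G v)) := by
    intro v s
    rw [coeff_rp]
    rcases hGc v s with h | h
    · rw [h, rd_zero, map_zero]
    · exact hφK _ h
  set y₀ : Fin m ⊕ Fin n → ℂ := Sum.elim t x with hy₀
  have hy₀int : ∀ v, ‖τ (y₀ v)‖ ≤ 1 := by
    rintro (i | r)
    · exact (hUn₃ _ (htZ i)).1
    · exact (hUn _ (hxZ r)).1
  have hyint := orb_int τ G hGint y₀ hy₀int
  have hyB : ∀ k, ∀ g ∈ B, eval (fun i => (evI G)^[k] y₀ (Sum.inl i)) g = 0 := fun k => (hyX k).1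
  have hyD : ∀ k, ∃ g ∈ D₀, ‖τ (eval (fun i => (evI G)^[k] y₀ (Sum.inl i)) g)‖ = 1 := by
    intro k
    induction k with
    | zero => exact ⟨g₀, hg₀, hUg₀⟩
    | succ k ih =>
      have h1 : (fun i => (evI G)^[k + 1] y₀ (Sum.inl i)) = ev F fun i => (evI G)^[k] y₀ (Sum.inl i) := by
        rw [orb_base F P y₀ (k + 1), orb_base F P y₀ k, Function.iterate_succ_apply']
      rw [h1]
      exact hinv p τ hUn₅ _ (hyB k) (fun i => hyint k (Sum.inl i)) ih
  -- residues of the orbit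
  have hres : ∀ k, (fun v => rd τ ((evI G)^[k] y₀ v)) = (evI fun v => rp τ (G v))^[k] fun v => rd τ (y₀ v) := by
    intro k
    induction k with
    | zero => rfl
    | succ k ih =>
      rw [Function.iterate_succ_apply', Function.iterate_succ_apply', ← ih]
      funext v
      exact (rd_eval τ (G v) (hGint v) _ (hyint k)).2
  have hfixB : ∀ k i, φ (rd τ ((evI G)^[k] y₀ (Sum.inl i))) = rd τ ((evI G)^[k] y₀ (Sum.inl i)) := by
    intro k
    induction k with
    | zero => exact fun i => hφK _ (htZ i)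
    | succ k ih =>
      intro i
      rw [Function.iterate_succ_apply']
      change φ (rd τ (eval ((evI G)^[k] y₀) (G (Sum.inl i)))) = rd τ (eval ((evI G)^[k] y₀) (G (Sum.inl i)))
      rw [(rd_eval τ (G (Sum.inl i)) (hGint (Sum.inl i)) _ (hyint k)).2]
      have h1 := Pool.Agent.Helper10.OS.eval_iterI φ (rp τ (G (Sum.inl i))) (hGfix (Sum.inl i)) 1
        fun v => rd τ ((evI G)^[k] y₀ v)
      rw [Function.iterate_one] at h1
      rw [← h1]
      refine Pool.Agent.Helper10.OS.eval_congr _ _ _ fun s hs v hv => ?_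
      rcases v with i' | j
      · exact ih i'
      · exfalso
        apply hv
        rw [mem_support_iff, coeff_rp] at hs
        have h1 : coeff s (rename Sum.inl (F i)) ≠ 0 := by
          intro h
          apply hs
          change rd τ (coeff s (rename Sum.inl (F i))) = 0
          rw [h, rd_zero]
        obtain ⟨u, hu, -⟩ := coeff_rename_ne_zero _ _ _ h1
        rw [← hu]
        exact Finsupp.mapDomain_of_notMem_range _ _ (by rintro ⟨i', hi'⟩; exact absurd hi' (by simp))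
  have hfixN : ∀ k i, ‖(τ ((evI G)^[k] y₀ (Sum.inl i))) ^ p - τ ((evI G)^[k] y₀ (Sum.inl i))‖ < 1 := by
    intro k i
    have h1 := (rd_pow_iff τ ((evI G)^[k] y₀ (Sum.inl i)) (hyint k _) 1).1 (by
      rw [pow_one]
      exact hfixB k i)
    rwa [pow_one] at h1
  -- the residues of the base are periodic from `a` on
  have hFint : ∀ i s, ‖τ (coeff s (F i))‖ ≤ 1 := by
    intro i s
    by_cases h : coeff s (F i) = 0
    · rw [h, map_zero, norm_zero]
      exact zero_le_one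
    · exact (hUn₃ _ (hFZ i s h)).1
  have hsucc : ∀ k, (fun i => (evI G)^[k + 1] y₀ (Sum.inl i)) = ev F fun i => (evI G)^[k] y₀ (Sum.inl i) := by
    intro k
    rw [orb_base F P y₀ (k + 1), orb_base F P y₀ k, Function.iterate_succ_apply']
  obtain ⟨a, c, hc1, hac⟩ := ev_per (fun k => fun i => rd τ ((evI G)^[k] y₀ (Sum.inl i)))
    ((Set.Finite.pi' fun _ : Fin m => fix_fin p).subset (by
      rintro _ ⟨k, rfl⟩ i
      have h1 := hfixB k i
      rwa [hφ, frobenius_def] at h1)) (by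
      intro a b hab
      funext i
      have h1 : ∀ k, rd τ ((evI G)^[k + 1] y₀ (Sum.inl i)) =
          eval (fun j => rd τ ((evI G)^[k] y₀ (Sum.inl j))) (rp τ (F i)) := by
        intro k
        have h2 := congrFun (hsucc k) i
        rw [h2]
        exact (rd_eval τ (F i) (hFint i) _ fun j => hyint k (Sum.inl j)).2
      rw [h1, h1, hab])
  have hHu := hfu p τ hUnf hfpf (fun k i => (evI G)^[a + k] y₀ (Sum.inl i)) (fun k => hsucc (a + k))
    (fun k => hyB (a + k)) (fun k i => hyint (a + k) (Sum.inl i)) (fun k => hyD (a + k)) (fun k => hfixN (a + k)) c hc1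
    (by
      intro k i
      have h1 := congrFun (hac k) i
      have h2 : rd τ ((evI G)^[a + (k + c)] y₀ (Sum.inl i) - (evI G)^[a + k] y₀ (Sum.inl i)) = 0 := by
        rw [Pool.Agent.Helper11.OB.rd_sub τ (hyint _ _) (hyint _ _), sub_eq_zero, ← add_assoc]
        exact h1
      have h3 : ‖τ ((evI G)^[a + (k + c)] y₀ (Sum.inl i) - (evI G)^[a + k] y₀ (Sum.inl i))‖ ≤ 1 := by
        rw [map_sub, sub_eq_add_neg]
        refine (PadicAlgCl.isNonarchimedean p _ _).trans (max_le (hyint _ _) ?_)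
        rw [norm_neg]
        exact hyint _ _
      have h4 := (rd_eq_zero τ h3).1 h2
      rwa [map_sub] at h4)
  -- the letters: one extension of the base map for each residue
  obtain ⟨hLint, hLu⟩ := hjac p τ hUn₂
  have hbase : ∀ b : Fin c, ∃ F' ∈ 𝓛, ‖τ (jac F' fun i => (evI G)^[a + b.1] y₀ (Sum.inl i)).det‖ = 1 := fun b =>
    hLu _ (hyB (a + b.1)) (fun i => hyint (a + b.1) (Sum.inl i)) (hyD (a + b.1)) (hHu b.1)
  choose F' hF'𝓛 hF'u using hbase
  have hc0 : 0 < c := hc1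
  have hres2 : ∀ k i, rd τ ((evI G)^[a + k % c] y₀ (Sum.inl i)) = rd τ ((evI G)^[a + k] y₀ (Sum.inl i)) := by
    intro k i
    have h1 : ∀ q : ℕ, rd τ ((evI G)^[a + (k % c + c * q)] y₀ (Sum.inl i)) =
        rd τ ((evI G)^[a + k % c] y₀ (Sum.inl i)) := by
      intro q
      induction q with
      | zero => rfl
      | succ q ih =>
        rw [← ih, show a + (k % c + c * (q + 1)) = a + (k % c + c * q) + c by ring]
        exact congrFun (hac (k % c + c * q)) i
    have h2 := h1 (k / c)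
    rw [Nat.mod_add_div] at h2
    exact h2.symm
  have hF'u2 : ∀ k, ‖τ (jac (F' ⟨k % c, Nat.mod_lt _ hc0⟩) fun i => (evI G)^[a + k] y₀ (Sum.inl i)).det‖ = 1 := fun k =>
    jac_rd τ _ (hLint _ (hF'𝓛 _)) _ _ (fun i => hyint (a + k % c) (Sum.inl i)) (fun i => hyint (a + k) (Sum.inl i))
      (hres2 k) (hF'u ⟨k % c, Nat.mod_lt _ hc0⟩)
  have hLc : ∀ (b : Fin c) v s, ‖τ (coeff s (GG (F' b) P v))‖ ≤ 1 := by
    rintro b (i | r) s
    · by_cases h : coeff s (rename Sum.inl (F' b i)) = 0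
      · change ‖τ (coeff s (rename Sum.inl (F' b i)))‖ ≤ 1
        rw [h, map_zero, norm_zero]
        exact zero_le_one
      · obtain ⟨u, hu, hu'⟩ := coeff_rename_ne_zero _ _ _ h
        change ‖τ (coeff s (rename Sum.inl (F' b i)))‖ ≤ 1
        rw [← hu, coeff_rename_mapDomain _ Sum.inl_injective]
        exact hLint _ (hF'𝓛 b) i u
    · exact hGint (Sum.inr r) s
  have hstep : ∀ k, (evI G)^[a + (k + 1)] y₀ = evI (GG (F' ⟨k % c, Nat.mod_lt _ hc0⟩) P) ((evI G)^[a + k] y₀) := by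
    intro k
    rw [← add_assoc, Function.iterate_succ_apply']
    funext v
    rcases v with i | r
    · change eval ((evI G)^[a + k] y₀) (rename Sum.inl (F i)) =
        eval ((evI G)^[a + k] y₀) (rename Sum.inl (F' ⟨k % c, Nat.mod_lt _ hc0⟩ i))
      rw [eval_rename, eval_rename]
      exact ((h𝓛 _ (hF'𝓛 ⟨k % c, Nat.mod_lt _ hc0⟩)).eval_eq (hyB (a + k)) i).symm
    · rfl
  suffices hju : ∀ k, ‖τ (jacI (GG (F' ⟨k % c, Nat.mod_lt _ hc0⟩) P) ((evI G)^[a + k] y₀)).det‖ = 1 by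
    obtain ⟨S', hS'⟩ := eng_seq hc0 (fun b => GG (F' b) P) p hp3 τ hLc (fun k => (evI G)^[a + k] y₀)
      (fun k => hyint (a + k)) hstep hju V
    exact shift_set (fun k => ∀ g ∈ V, eval ((evI G)^[k] y₀) g = 0) a S' hS'
  intro k
  rw [Pool.Agent.Helper83.TRC.det_tri _ P htri, map_mul, norm_mul, hF'u2 k, one_mul, map_prod, norm_prod]
  refine Finset.prod_eq_one fun r _ => ?_
  obtain ⟨hd1, hd2⟩ := rd_pderiv τ (P r) (hGint (Sum.inr r)) (Sum.inr r)
  obtain ⟨hd3, hd4⟩ := rd_eval τ (pderiv (Sum.inr r) (P r)) hd1 _ (hyint (a + k))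
  refine norm_of_rd_ne_zero τ hd3 ?_
  rw [hd4, hd2, hres (a + k)]
  refine pderiv_orbit2 φ (fun v => rp τ (G v)) hGfix e ?_ ?_ he ?_ (fun v => rd τ (y₀ v)) ?_ ?_ (a + k) r
  · intro i s hs j
    by_contra hne
    rw [mem_support_iff, coeff_rp] at hs
    have h1 : coeff s (rename Sum.inl (F i)) ≠ 0 := by
      intro h
      apply hs
      change rd τ (coeff s (rename Sum.inl (F i))) = 0
      rw [h, rd_zero]
    obtain ⟨u, hu, -⟩ := coeff_rename_ne_zero _ _ _ h1
    apply hne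
    rw [← hu]
    exact Finsupp.mapDomain_of_notMem_range _ _ (by rintro ⟨i', hi'⟩; exact absurd hi' (by simp))
  · intro r' s hs j hj
    rw [mem_support_iff, coeff_rp] at hs
    refine htri r' s ?_ j hj
    rw [mem_support_iff]
    intro h
    apply hs
    change rd τ (coeff s (P r')) = 0
    rw [h, rd_zero]
  · intro r' h
    have h1 := (CharP.cast_eq_zero_iff (kk p) p (e r')).1 h
    have h2 := Nat.le_of_dvd (he r') h1
    have := hpe r'
    omega
  · intro k' r'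
    rw [← hres k']
    change (fib (Sum.inr r') (fun v => rd τ ((evI G)^[k'] y₀ v)) (rp τ (P r'))).natDegree = e r'
    have hf := rd_fib τ (P r') (hGint (Sum.inr r')) _ (hyint k') (Sum.inr r')
    have hdg := hdeg _ (hyX k') r'
    refine le_antisymm ?_ ?_
    · rw [Polynomial.natDegree_le_iff_coeff_eq_zero]
      intro j hj
      rw [← (hf j).2, Polynomial.coeff_eq_zero_of_natDegree_lt (by rw [hdg]; exact hj), rd_zero]
    · refine Polynomial.le_natDegree_of_ne_zero ?_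
      rw [← (hf (e r')).2]
      intro h
      have h1 := (rd_eq_zero τ (hf (e r')).1).1 h
      have h2 := hlead p τ hUn₁ _ (hyB k') (hyint k') (hyD k') r'
      rw [h2] at h1
      exact lt_irrefl _ h1
  · intro r'
    rcases Nat.lt_or_ge (e r') 2 with h | h
    · left
      have := he r'
      omega
    · right
      obtain ⟨hl1, hl2, hl3, hl4⟩ := ln_eq σ x (fun j => hper (x j) (hx j)) φ (fun j => rd τ (x j))
        (fun j k => hrd (x j) (hxZ j) k) r'
      refine ⟨ln σ x r', ?_, ?_⟩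
      · rintro (i | j) hb
        · exact Function.iterate_fixed (hφK _ (htZ i)) _
        · exact hl2 j hb
      · have hl4' : Function.minimalPeriod (φ^[ln σ x r']) (rd τ (y₀ (Sum.inr r'))) = ln σ x (r' + 1) / ln σ x r' := hl4
        rw [hl4']
        rcases hc r' h with h5 | ⟨hfin, hcr⟩
        · exact Or.inl h5
        · refine Or.inr ⟨hl3, fun k' w hw E hE => ?_⟩
          rw [← hres k'] at hw
          have hdg := hdeg _ (hyX k') r'
          have hcm : ∀ c, (Polynomial.derivative (fib (Sum.inr r') ((evI G)^[k'] y₀) (P r'))).eval c = 0 → c ∈ Z₄ :=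
            fun c hc0 => hcrZ₄ r' hfin c ⟨k', hc0⟩
          obtain ⟨c, hc0, rfl⟩ := Pool.Agent.Helper11.TR.crit_rd τ (P r') (hGint (Sum.inr r')) _ (hyint k') (Sum.inr r') (e r') (he r') (hpe r')
            hdg (hlead p τ hUn₁ _ (hyB k') (hyint k') (hyD k') r') (fun c hc0 => (hUn c (hZ₄Z c (hcm c hc0))).1) w hw
          rw [len_eq σ φ (ln σ x r') c (rd τ c) (hper c (hZ₄ c (hcm c hc0)))
            (fun k => hrd c (hZ₄Z c (hcm c hc0)) k)]
          exact hcr c ⟨k', hc0⟩ E hE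

end

end Pool.Agent.Helper10.V3
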