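import Pool.Agent.Helper10.V3.Asm
import Pool.Agent.Helper10.V2.CF
import Pool.Agent.Helper11.V2.S
import Pool.Agent.Helper53.TR.FP
import Pool.Agent.Helper98.TR.CY

/-!
# V3: the theorem, in the form of the result file
-/

set_option autoImplicit false

namespace Pool.Agent.Helper10.V3

open MvPolynomial Pool.Agent.Helper61.TH Pool.Agent.Helper87.FK Pool.Agent.Helper26.OB Pool.Agent.Helper10.TR
open Pool.Agent.Helper26.OS (evI jacI)
open Pool.Agent.Helper10.V2 (Fam frob_conj)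

noncomputable section

/-- unramified: the ramification locus is empty -/
theorem good_of_unram {m : ℕ} (A : Subfield ℂ) (s : ℂ →+* ℂ) (F : Fin m → MvPolynomial (Fin m) ℂ)
    (B D : Set (MvPolynomial (Fin m) ℂ)) (h : ∀ t, InX B D t → ¬ Ram B F t) : Good A s F B D := by
  classical
  refine ⟨{1}, Fam.union {1} 0 (fun i => i.elim0) ?_ (fun i => i.elim0) ?_, fun t ht h0 => absurd h0 (h t ht)⟩
  · intro h hh u
    rw [Set.mem_singleton_iff.1 hh, coeff_one]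
    split_ifs
    · exact A.one_mem
    · exact A.zero_mem
  · intro t _ h1
    have h2 := h1 1 rfl
    rw [map_one] at h2
    exact absurd h2 one_ne_zero

theorem fin
    {m n : ℕ} (K : Subfield ℂ) (B D : Set (MvPolynomial (Fin m) ℂ))
    (hB : ∀ g ∈ B, ∀ s, coeff s g ∈ K) (hD : ∀ g ∈ D, ∀ s, coeff s g ∈ K)
    (F : Fin m → MvPolynomial (Fin m) ℂ) (hF : ∀ i s, coeff s (F i) ∈ K)
    (hFX : ∀ t, ((∀ g ∈ B, eval t g = 0) ∧ ∃ g ∈ D, eval t g ≠ 0) →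
      ((∀ g ∈ B, eval (fun i => eval t (F i)) g = 0) ∧ ∃ g ∈ D, eval (fun i => eval t (F i)) g ≠ 0))
    (P : Fin n → MvPolynomial (Fin m ⊕ Fin n) ℂ) (hP : ∀ r s, coeff s (P r) ∈ K)
    (htri : ∀ r, ∀ s ∈ (P r).support, ∀ j, r < j → s (Sum.inr j) = 0)
    (e : Fin n → ℕ) (he : ∀ r, 1 ≤ e r)
    (hdeg : ∀ y : Fin m ⊕ Fin n → ℂ, ((∀ g ∈ B, eval (fun i => y (Sum.inl i)) g = 0) ∧
      ∃ g ∈ D, eval (fun i => y (Sum.inl i)) g ≠ 0) → ∀ r, (fib (Sum.inr r) y (P r)).natDegree = e r)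
    (t : Fin m → ℂ) (ht : ∀ i, t i ∈ K) (htX : (∀ g ∈ B, eval t g = 0) ∧ ∃ g ∈ D, eval t g ≠ 0) (x : Fin n → ℂ)
    (hx : (∃ (A : Subfield ℂ) (σ : ℂ ≃+* ℂ), (∀ z ∈ K, σ z = z) ∧
        ((NumberField K ∧ ∀ z, z ∈ A ↔ IsAlgebraic ℚ z) ∨ ((∀ z, σ z = (starRingEnd ℂ) z) ∧ ∀ z, z ∈ A)) ∧
        Good A (σ : ℂ →+* ℂ) F B D ∧ (∀ r, x r ∈ A) ∧
        ∀ r : Fin n, 2 ≤ e r → ∃ l : ℕ, l.Prime ∧ e r < l ∧ l ∣ ln σ x (r + 1) / ln σ x r) ∨
      (NumberField K ∧ (∀ t, ((∀ g ∈ B, eval t g = 0) ∧ ∃ g ∈ D, eval t g ≠ 0) → ¬ Ram B F t) ∧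
        ∃ l : Fin n → ℕ, Function.Injective l ∧ ∀ r, (e r = 1 ∧ x r ∈ K) ∨ ((l r).Prime ∧ e r < l r ∧
        x r ∉ K ∧ ∃ L : IntermediateField K ℂ, IsGalois K L ∧ Module.finrank K L = l r ∧ x r ∈ L)))
    (V : Set (MvPolynomial (Fin m ⊕ Fin n) ℂ)) :
    ∃ S : Finset (ℕ × ℕ), {k : ℕ | ∀ g ∈ V, eval ((fun y : Fin m ⊕ Fin n → ℂ =>
        Sum.elim (fun i => eval (fun j => y (Sum.inl j)) (F i)) fun r => eval y (P r))^[k] (Sum.elim t x)) g = 0} =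
      {k | ∃ q ∈ S, ∃ j, k = q.1 + q.2 * j} := by
  have hΦ : (fun y : Fin m ⊕ Fin n → ℂ =>
        Sum.elim (fun i => eval (fun j => y (Sum.inl j)) (F i)) fun r => eval y (P r)) = evI (GG F P) := by
    funext y v
    rcases v with i | r
    · change eval (fun j => y (Sum.inl j)) (F i) = eval y (rename Sum.inl (F i))
      rw [eval_rename]
      rfl
    · rfl
  rw [hΦ]
  -- the number field case
  have nf : NumberField K → ∀ (A : Subfield ℂ), (∀ z, z ∈ A ↔ IsAlgebraic ℚ z) → ∀ σ : ℂ ≃+* ℂ, (∀ z ∈ K, σ z = z) →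
      Good A (σ : ℂ →+* ℂ) F B D → (∀ r, x r ∈ A) →
      (∀ r : Fin n, 2 ≤ e r → ∃ l : ℕ, l.Prime ∧ e r < l ∧ l ∣ ln σ x (r + 1) / ln σ x r) →
      ∃ S : Finset (ℕ × ℕ), {k : ℕ | ∀ g ∈ V, eval ((evI (GG F P))^[k] (Sum.elim t x)) g = 0} =
        {k | ∃ q ∈ S, ∃ j, k = q.1 + q.2 * j} := by
    intro hK A hA σ hσ hg hxA hc
    have hσA : ∀ z ∈ A, σ z ∈ A := fun z hz => (hA _).2 (((hA z).1 hz).algHom (σ : ℂ →+* ℂ).toRatAlgHom)
    refine tri5_of A (Pool.Agent.Helper11.TR.closedR A hA) σ hσA (fun z hz => per_alg σ z ((hA z).1 hz))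
      (fun Z hZ N₀ => Pool.Agent.Helper53.TR.frob_plus σ Z (fun z hz => (hA z).1 (hZ z hz)) N₀)
      (fun B hB D hD F hF Z hZ => Pool.Agent.Helper11.V2.fam_unit A (Pool.Agent.Helper11.TR.closedR A hA) (σ : ℂ →+* ℂ) hσA
        B hB D hD F hF Z hZ) K ?_ B D hB hD F hF hFX P hP htri e he hdeg t ht htX x hxA hσ hg (fun r hr => Or.inl (hc r hr)) V
    intro z hz
    have h1 : IsAlgebraic ℚ (⟨z, hz⟩ : K) := Algebra.IsAlgebraic.isAlgebraic _
    exact (hA z).2 ((isAlgebraic_algebraMap_iff (S := K) (A := ℂ) Subtype.val_injective).2 h1)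
  rcases hx with ⟨A, σ, hσ, ⟨hK, hA⟩ | ⟨hσc, hA⟩, hg, hxA, hc⟩ | ⟨hK, het, l, hl, h⟩
  · exact nf hK A hA σ hσ hg hxA hc
  · have hσe : (σ : ℂ →+* ℂ) = starRingEnd ℂ := RingHom.ext hσc
    have hσf : (σ : ℂ → ℂ) = starRingEnd ℂ := funext hσc
    refine tri5_of A (fun z _ => hA z) σ (fun z _ => hA _) (fun z _ => ⟨2, by norm_num, ?_⟩)
      (fun Z _ N₀ => ?_) (fun B hB D hD F hF Z hZ => Pool.Agent.Helper11.V2.fam_unit A (fun z _ => hA z) (σ : ℂ →+* ℂ)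
        (fun z _ => hA _) B hB D hD F hF Z hZ) K (fun z _ => hA z) B D hB hD F hF hFX P hP htri e he hdeg t ht htX x hxA hσ hg
      (fun r hr => Or.inl (hc r hr)) V
    · rw [hσf]
      change (starRingEnd ℂ) ((starRingEnd ℂ) z) = z
      exact Complex.conj_conj z
    · rw [hσe, hσf]
      exact frob_conj Z N₀
  · obtain ⟨σ, hσ, hc⟩ := cyc_cond K e x l hl h
    let A : Subfield ℂ := (algebraicClosure ℚ ℂ).toSubfield
    have hAm : ∀ z, z ∈ A ↔ IsAlgebraic ℚ z := fun z => mem_algebraicClosure_iff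
    refine nf hK A hAm σ hσ (good_of_unram A _ F B D het) ?_ hc
    intro r
    have hxa : IsAlgebraic K (x r) := by
      rcases h r with ⟨-, h1⟩ | ⟨hlr, -, -, L, hL, hfr, hxL⟩
      · exact isAlgebraic_algebraMap (⟨x r, h1⟩ : K)
      · have hfd : FiniteDimensional K L := Module.finite_of_finrank_pos (by rw [hfr]; exact hlr.pos)
        have h1 : IsAlgebraic K (⟨x r, hxL⟩ : L) := Algebra.IsAlgebraic.isAlgebraic _
        exact (isAlgebraic_algebraMap_iff (S := L) (A := ℂ) Subtype.val_injective).2 h1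
    have hKa : Algebra.IsAlgebraic ℚ K := inferInstance
    exact (hAm _).2 (isIntegral_trans (R := ℚ) (A := K) (x r) (isAlgebraic_iff_isIntegral.1 hxa)).isAlgebraic

end

end Pool.Agent.Helper10.V3
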