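import Pool.Agent.Helper10.TR.Defs2

/-!
# V3: the ramification locus and the Jacobian determinants of the extensions of the map
-/

set_option autoImplicit false

namespace Pool.Agent.Helper10.V3

open MvPolynomial Pool.Agent.Helper61.TH Pool.Agent.Helper87.FK Pool.Agent.Helper26.OB Pool.Agent.Helper10.TR

noncomputable section

variable {m : ℕ}

/-- the gradient of `g` at `t`, applied to `v` -/
def grad (g : MvPolynomial (Fin m) ℂ) (t v : Fin m → ℂ) : ℂ := ∑ j, eval t (pderiv j g) * v j

/-- the differential of `F` is not injective on the tangent space of `B` at `t` -/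
def Ram (B : Set (MvPolynomial (Fin m) ℂ)) (F : Fin m → MvPolynomial (Fin m) ℂ) (t : Fin m → ℂ) : Prop :=
  ∃ v : Fin m → ℂ, v ≠ 0 ∧ (∀ i, grad (F i) t v = 0) ∧ ∀ g ∈ B, grad g t v = 0

/-- polynomial maps which agree with `F` on `B`: equations are added to the coordinates -/
inductive Upd (B : Set (MvPolynomial (Fin m) ℂ)) (F : Fin m → MvPolynomial (Fin m) ℂ) :
    (Fin m → MvPolynomial (Fin m) ℂ) → Prop
  | refl : Upd B F F
  | step (F' : Fin m → MvPolynomial (Fin m) ℂ) (i : Fin m) (g : MvPolynomial (Fin m) ℂ) (h : Upd B F F') (hg : g ∈ B) :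
      Upd B F (Function.update F' i (F' i + g))

theorem Upd.coeffs {A : Subfield ℂ} {B : Set (MvPolynomial (Fin m) ℂ)} {F F' : Fin m → MvPolynomial (Fin m) ℂ}
    (hB : ∀ g ∈ B, ∀ u, coeff u g ∈ A) (hF : ∀ i u, coeff u (F i) ∈ A) (h : Upd B F F') : ∀ i u, coeff u (F' i) ∈ A := by
  induction h with
  | refl => exact hF
  | step F' i g _ hg ih =>
    intro j u
    by_cases hj : j = i
    · subst hj
      rw [Function.update_self, coeff_add]
      exact A.add_mem (ih j u) (hB g hg u)
    · rw [Function.update_of_ne hj]
      exact ih j u

theorem Upd.eval_eq {B : Set (MvPolynomial (Fin m) ℂ)} {F F' : Fin m → MvPolynomial (Fin m) ℂ} (h : Upd B F F')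
    {t : Fin m → ℂ} (ht : ∀ g ∈ B, eval t g = 0) : ∀ i, eval t (F' i) = eval t (F i) := by
  induction h with
  | refl => exact fun i => rfl
  | step F' i g _ hg ih =>
    intro j
    by_cases hj : j = i
    · subst hj
      rw [Function.update_self, map_add, ht g hg, add_zero]
      exact ih j
    · rw [Function.update_of_ne hj]
      exact ih j

theorem jac_mulVec (F : Fin m → MvPolynomial (Fin m) ℂ) (t v : Fin m → ℂ) (i : Fin m) :
    (jac F t).mulVec v i = grad (F i) t v := rfl

theorem grad_update (F : Fin m → MvPolynomial (Fin m) ℂ) (i : Fin m) (g : MvPolynomial (Fin m) ℂ) (t v : Fin m → ℂ) :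
    (jac (Function.update F i (F i + g)) t).mulVec v = (jac F t).mulVec v + Pi.single i (grad g t v) := by
  funext j
  rw [Pi.add_apply, jac_mulVec, jac_mulVec]
  by_cases hj : j = i
  · subst hj
    rw [Function.update_self, Pi.single_eq_same, grad, grad, grad, ← Finset.sum_add_distrib]
    refine Finset.sum_congr rfl fun k _ => ?_
    rw [map_add, map_add, add_mul]
  · rw [Function.update_of_ne hj, Pi.single_eq_of_ne hj, add_zero]

theorem Upd.ker {B : Set (MvPolynomial (Fin m) ℂ)} {F F' : Fin m → MvPolynomial (Fin m) ℂ} (h : Upd B F F')
    {t v : Fin m → ℂ} (hv : ∀ g ∈ B, grad g t v = 0) : (jac F' t).mulVec v = (jac F t).mulVec v := by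
  induction h with
  | refl => rfl
  | step F' i g _ hg ih => rw [grad_update, hv g hg, Pi.single_zero, add_zero, ih]

/-- where `F` is unramified one of the extensions has Jacobian determinant `≠ 0` -/
theorem exists_upd {B : Set (MvPolynomial (Fin m) ℂ)} {F : Fin m → MvPolynomial (Fin m) ℂ} {t : Fin m → ℂ}
    (h : ¬ Ram B F t) : ∃ F', Upd B F F' ∧ (jac F' t).det ≠ 0 := by
  have key : ∀ (n : ℕ) (F' : Fin m → MvPolynomial (Fin m) ℂ), Upd B F F' →
      Module.finrank ℂ (LinearMap.ker (jac F' t).mulVecLin) = n → ∃ F', Upd B F F' ∧ (jac F' t).det ≠ 0 := by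
    intro n
    induction n using Nat.strong_induction_on with
    | _ n ih =>
      intro F' hF' hn
      by_cases hdet : (jac F' t).det = 0
      · obtain ⟨v₀, hv₀, hv₀k⟩ := Matrix.exists_mulVec_eq_zero_iff.2 hdet
        -- a kernel vector which is not tangent
        obtain ⟨v, hv, g, hg, hgv⟩ : ∃ v, (jac F' t).mulVec v = 0 ∧ ∃ g ∈ B, grad g t v ≠ 0 := by
          by_contra hcon
          push Not at hcon
          have h1 := hcon v₀ hv₀k
          refine h ⟨v₀, hv₀, fun i => ?_, h1⟩
          rw [← jac_mulVec, ← hF'.ker h1, hv₀k]
          rfl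
        -- a coordinate vector outside of the range
        obtain ⟨i, hi⟩ : ∃ i, ∀ w, (jac F' t).mulVec w ≠ Pi.single i 1 := by
          by_contra hcon
          push Not at hcon
          choose w hw using hcon
          have h1 : Function.Surjective (jac F' t).mulVec := by
            intro y
            refine ⟨∑ i, y i • w i, ?_⟩
            rw [Matrix.mulVec_sum]
            have h2 : ∀ i, (jac F' t).mulVec (y i • w i) = Pi.single i (y i) := by
              intro i
              rw [Matrix.mulVec_smul, hw i]
              funext j
              rw [Pi.smul_apply, Pi.single_apply, Pi.single_apply, smul_eq_mul]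
              split_ifs
              · rw [mul_one]
              · rw [mul_zero]
            rw [Finset.sum_congr rfl fun i _ => h2 i]
            exact Finset.univ_sum_single y
          have h2 : IsUnit (jac F' t) := Matrix.mulVec_surjective_iff_isUnit.1 h1
          rw [Matrix.isUnit_iff_isUnit_det, hdet] at h2
          exact not_isUnit_zero h2
        -- the kernel becomes smaller
        have hlt : Module.finrank ℂ (LinearMap.ker (jac (Function.update F' i (F' i + g)) t).mulVecLin) < n := by
          rw [← hn]
          refine Submodule.finrank_lt_finrank_of_lt (lt_of_le_of_ne ?_ ?_)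
          · intro w hw
            rw [LinearMap.mem_ker, Matrix.mulVecLin_apply, grad_update] at hw
            rw [LinearMap.mem_ker, Matrix.mulVecLin_apply]
            have h1 : grad g t w = 0 := by
              by_contra hne
              refine hi (-(grad g t w)⁻¹ • w) ?_
              rw [Matrix.mulVec_smul, eq_neg_of_add_eq_zero_left hw]
              funext j
              rw [Pi.smul_apply, Pi.neg_apply, Pi.single_apply, Pi.single_apply, smul_eq_mul]
              split_ifs
              · field_simp
              · simp
            rw [h1, Pi.single_zero, add_zero] at hw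
            exact hw
          · intro heq
            have h1 : v ∈ LinearMap.ker (jac F' t).mulVecLin := by
              rw [LinearMap.mem_ker, Matrix.mulVecLin_apply]
              exact hv
            rw [← heq, LinearMap.mem_ker, Matrix.mulVecLin_apply, grad_update, hv, zero_add] at h1
            have h2 := congrFun h1 i
            rw [Pi.single_eq_same] at h2
            exact hgv h2
        exact ih _ hlt _ (hF'.step _ i g hg) rfl
      · exact ⟨F', hF', hdet⟩
  exact key _ F Upd.refl rfl

end

end Pool.Agent.Helper10.V3
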